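import Pool.Agent.P.MP_0e199b_al.W.Lower

open Pool.Agent.P.MP_0e199b_al

/-- For `n ≥ 4` the arguments of `z - l(A)`, with `A` a tau-matrix of order `n` and `z ≠ l(A)` an
eigenvalue of `A`, are exactly the real numbers of absolute value less than `π - π / (n - 2)`. -/
theorem Pool.Agent.Results.MP_0e199b_al.ExactWedge.result (n : ℕ) (hn : 4 ≤ n) (θ : ℝ) :
    (∃ A : Matrix (Fin n) (Fin n) ℂ, IsTau A ∧ ∃ z ∈ spectrum ℂ A, z ≠ ((lmin A).toReal : ℂ) ∧
      Complex.arg (z - ((lmin A).toReal : ℂ)) = θ) ↔ |θ| < Real.pi - Real.pi / ((n : ℝ) - 2) :=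
  Pool.Agent.P.MP_0e199b_al.tau_wedge n hn θ
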