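import Pool.Agent.P.MP_0e199b_al.Stab5

open Pool.Agent.P.MP_0e199b_al

/-- The largest `N` such that every nonsingular tau-matrix of order at most `N` is positive
stable is `4`. -/
theorem Pool.Agent.Results.MP_0e199b_al.StableFour.result :
    IsGreatest {N : ℕ | ∀ n : ℕ, 1 ≤ n → n ≤ N → ∀ A : Matrix (Fin n) (Fin n) ℂ,
      IsTau A → A.det ≠ 0 → ∀ z ∈ spectrum ℂ A, 0 < z.re} 4 :=
  Pool.Agent.P.MP_0e199b_al.stable_main
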