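import Pool.Agent.P.MP_0e199b_al.Counter

open Pool.Agent.P.MP_0e199b_al

theorem Pool.Agent.Results.MP_0e199b_al.VargaThree.result :
    IsGreatest {N : ℕ | ∀ n : ℕ, 1 ≤ n → n ≤ N →
      ∀ A : Matrix (Fin n) (Fin n) ℂ, IsTau A → IneqV A} 3 :=
  Pool.Agent.P.MP_0e199b_al.main
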